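import Pool.Agent.Lib.CM38.Cpt

set_option autoImplicit false

open Pool.Agent.Lib.MP_695abf_an

namespace Pool.Agent.Results.MP_695abf_an.Compact

/-- There is a non-zero commutative radical Banach algebra that is biprojective and in which every
multiplication operator is compact. -/
theorem result : ∃ (A : Type) (_ : NonUnitalNormedCommRing A) (_ : NormedSpace ℂ A)
    (_ : IsScalarTower ℂ A A) (_ : SMulCommClass ℂ A A) (_ : CompleteSpace A),
    Nontrivial A ∧ IsRadical A ∧ Biprojective A ∧
      ∀ a : A, IsCompactOperator fun b : A => a * b :=
  Pool.Agent.Lib.CM38.main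

end Pool.Agent.Results.MP_695abf_an.Compact
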